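import Pool.Agent.Helper28.T3.StA

set_option autoImplicit false

open scoped NumberField

namespace Pool.Agent.Helper28.T3

theorem hAFIN : StQFE → StCNF → StIDL → StCUB → StRED → StAfin := by
  intro hQFE hCNF hIDL hCUB hRED D hsq hD h3
  have h4 : D % 4 = 3 := by omega
  have hgt : 4 < D := by omega
  obtain ⟨K, iF, iN, ⟨h⟩⟩ := hQFE D hsq h4
  have hcl := hCNF D K h hsq h4 hgt
  have h3h : 3 ∣ NumberField.classNumber K := by
    have h1 : (3 : ℤ) ∣ (D : ℤ) * NumberField.classNumber K := by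
      rw [hcl]
      exact (dvd_abs _ _).mpr h3
    have hp : Prime (3 : ℤ) := Int.prime_three
    rcases hp.dvd_or_dvd h1 with h2 | h2
    · exfalso
      have : (3 : ℤ) ∣ (D : ℤ) := h2
      omega
    · exact_mod_cast h2
  obtain ⟨I, α, hI, hIα, hnp⟩ := hIDL K h3h
  obtain ⟨a, b, c, d, h1, h2, h3'⟩ := hCUB D K h (by omega) I α hI hIα hnp
  exact hRED D a b c d hsq (by omega) h1 h2 h3'

end Pool.Agent.Helper28.T3
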