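import Pool.Agent.Helper28.T3.StC

set_option autoImplicit false

open scoped NumberField

namespace Pool.Agent.Helper28.T3

theorem hAFNq : StQFE → StCNF → StIDL → StCUB → StRED → StAFNq := by
  intro hQFE hCNF hIDL hCUB hRED D hsq h4 hgt h3D h9
  obtain ⟨K, iF, iN, ⟨h⟩⟩ := hQFE D hsq h4
  have hcl := hCNF D K h hsq h4 hgt
  have h3h : 3 ∣ NumberField.classNumber K := by
    have h1 : (9 : ℤ) ∣ (D : ℤ) * NumberField.classNumber K := by
      rw [hcl]
      exact (dvd_abs _ _).mpr h9
    obtain ⟨m, rfl⟩ := h3D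
    have hm : ¬ 3 ∣ m := by
      rintro ⟨k, rfl⟩
      have h2 := hsq 3 ⟨k, by ring⟩
      norm_num at h2
    have h2 : (3 : ℤ) ∣ (m : ℤ) * NumberField.classNumber K := by
      push_cast at h1
      have h3 : (3 : ℤ) * 3 ∣ 3 * ((m : ℤ) * NumberField.classNumber K) := by
        have : (3 : ℤ) * ((m : ℤ) * NumberField.classNumber K) =
          3 * (m : ℤ) * NumberField.classNumber K := by ring
        rw [this]
        exact h1
      exact (mul_dvd_mul_iff_left (by norm_num : (3 : ℤ) ≠ 0)).mp h3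
    have hp : Prime (3 : ℤ) := Int.prime_three
    rcases hp.dvd_or_dvd h2 with h4' | h4'
    · exfalso
      exact hm (by exact_mod_cast h4')
    · exact_mod_cast h4'
  obtain ⟨I, α, hI, hIα, hnp⟩ := hIDL K h3h
  obtain ⟨a, b, c, d, h1, h2, h3'⟩ := hCUB D K h (by omega) I α hI hIα hnp
  exact hRED D a b c d hsq (by omega) h1 h2 h3'

end Pool.Agent.Helper28.T3
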