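import Pool.Agent.Helper2.T3.M_CLSq
import Pool.Agent.Helper7.T3.M_CCN
import Pool.Agent.Helper8.T3.M_CNTq
import Pool.Agent.Helper10.T3.M_ABCq
import Pool.Agent.Helper10.T3.M_WM
import Pool.Agent.Helper13.T3.M_PLC
import Pool.Agent.Helper22.T3.M_CCNq
import Pool.Agent.Helper22.T3.M_UM
import Pool.Agent.Helper25.T3.M_ABC
import Pool.Agent.Helper25.T3.M_MUL
import Pool.Agent.Helper26.T3.M_GODq
import Pool.Agent.Helper28.T3.M_AFIN
import Pool.Agent.Helper28.T3.M_AFNq
import Pool.Agent.Helper29.T3.M_TOR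
import Pool.Agent.Helper32.T3.M_WA
import Pool.Agent.Helper33.T3.M_FINq
import Pool.Agent.Helper34.T3.M_CLS
import Pool.Agent.Helper36.T3.M_DCNq
import Pool.Agent.Helper36.T3.M_DSC
import Pool.Agent.Helper38.T3.M_SQFq
import Pool.Agent.Helper42.T3.M_CNT
import Pool.Agent.Helper47.T3.M_GOOD
import Pool.Agent.Helper47.T3.M_QFE
import Pool.Agent.Helper55.T3.M_CNF
import Pool.Agent.Helper55.T3.M_LF
import Pool.Agent.Helper57.T3.M_RED
import Pool.Agent.Helper60.T3.M_LIM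
import Pool.Agent.Helper60.T3.M_SA
import Pool.Agent.Helper61.T3.M_SAq
import Pool.Agent.Helper63.T3.M_CHR
import Pool.Agent.Helper66.T3.M_IDC
import Pool.Agent.Helper69.T3.M_RPP
import Pool.Agent.Helper71.T3.M_CUB
import Pool.Agent.Helper72.T3.M_DCN
import Pool.Agent.Helper77.T3.M_ARI
import Pool.Agent.Helper84.T3.M_FIN
import Pool.Agent.Helper84.T3.M_PHI
import Pool.Agent.Helper84.T3.M_SQF
import Pool.Agent.Helper86.T3.M_IAq
import Pool.Agent.Helper89.T3.M_IA
import Pool.Agent.Helper94.T3.M_WB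
import Pool.Agent.Helper99.T3.M_IDL

/-!
# Project T3: class numbers prime to 3 in positive proportion (assembly)
-/

set_option autoImplicit false

namespace Pool.Agent.Helper28.T3

theorem cnf : StCNF :=
  Pool.Agent.Helper55.T3.hCNF Pool.Agent.Helper36.T3.hDSC
    (Pool.Agent.Helper13.T3.hPLC Pool.Agent.Helper36.T3.hDSC) Pool.Agent.Helper29.T3.hTOR
    Pool.Agent.Helper66.T3.hIDC
    (Pool.Agent.Helper77.T3.hARI Pool.Agent.Helper69.T3.hRPP Pool.Agent.Helper25.T3.hMUL)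
    Pool.Agent.Helper63.T3.hCHR Pool.Agent.Helper60.T3.hLIM Pool.Agent.Helper55.T3.hLF0
    Pool.Agent.Helper55.T3.hLF1

/-- The numbers `D ≤ N`, squarefree, `D ≡ 19` modulo `24`, with `3 ∤ ∑ (a/D) a` (`= -D h(-D)`), number at
least `N/100` for all large `N`. -/
theorem fin : StFIN := by
  have um := Pool.Agent.Helper22.T3.hUM
  have wm := Pool.Agent.Helper10.T3.hWM
  have wb := Pool.Agent.Helper94.T3.hWB
  have sa := Pool.Agent.Helper60.T3.hSA um Pool.Agent.Helper32.T3.hWA wb Pool.Agent.Helper84.T3.hPHI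
  have ia := Pool.Agent.Helper89.T3.hIA sa wm
  have ccn := Pool.Agent.Helper7.T3.hCCN um wm
  have abc := Pool.Agent.Helper25.T3.hABC Pool.Agent.Helper72.T3.hDCN ccn
  have cls := Pool.Agent.Helper34.T3.hCLS abc wb ia
  have cnt := Pool.Agent.Helper42.T3.hCNT cls Pool.Agent.Helper47.T3.hGOOD
  have afin := hAFIN Pool.Agent.Helper47.T3.hQFE cnf Pool.Agent.Helper99.T3.hIDL
    Pool.Agent.Helper71.T3.hCUB Pool.Agent.Helper57.T3.hRED
  exact Pool.Agent.Helper84.T3.hFIN Pool.Agent.Helper84.T3.hSQF cnt afin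

/-- The numbers `1 < D ≤ N`, squarefree, `D ≡ r` modulo `24` (`r = 1` or `17`), with `9 ∤ ∑ (a/3D) a`
(`= -3D h(-3D)`), number at least `N/100` for all large `N`. -/
theorem finq : StFINq := by
  have um := Pool.Agent.Helper22.T3.hUM
  have wm := Pool.Agent.Helper10.T3.hWM
  have wb := Pool.Agent.Helper94.T3.hWB
  have sa := Pool.Agent.Helper61.T3.hSAq um Pool.Agent.Helper32.T3.hWA wb
    Pool.Agent.Helper84.T3.hPHI
  have ia := Pool.Agent.Helper86.T3.hIAq sa wm
  have ccn := Pool.Agent.Helper22.T3.hCCNq um wm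
  have abc := Pool.Agent.Helper10.T3.hABCq Pool.Agent.Helper36.T3.hDCNq ccn
  have cls := Pool.Agent.Helper2.T3.hCLSq abc wb ia
  have cnt := Pool.Agent.Helper8.T3.hCNTq cls Pool.Agent.Helper26.T3.hGODq
  have afn := hAFNq Pool.Agent.Helper47.T3.hQFE cnf Pool.Agent.Helper99.T3.hIDL
    Pool.Agent.Helper71.T3.hCUB Pool.Agent.Helper57.T3.hRED
  exact Pool.Agent.Helper33.T3.hFINq Pool.Agent.Helper38.T3.hSQFq cnt afn

end Pool.Agent.Helper28.T3
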