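import Mathlib

/-!
# Project T3, definitions: imaginary quadratic fields of discriminant `-D`, `D ≡ 19 mod 24`
-/

set_option autoImplicit false

open scoped NumberField

namespace Pool.Agent.Helper28.T3

/-- `∑_{a < D} (a/D) a` (equal to `- D h(-D)`). -/
def TD (D : ℕ) : ℤ := ∑ a ∈ Finset.range D, jacobiSym (a : ℤ) D * (a : ℤ)

/-- `K` is the quadratic field of discriminant `-D`: the ring of integers has a basis `1, ω` with
`ω² = ω - e`, `4 e = D + 1`. -/
structure QF (D : ℕ) (K : Type) [Field K] [NumberField K] where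
  e : ℤ
  he : 4 * e = (D : ℤ) + 1
  b : Module.Basis (Fin 2) ℤ (𝓞 K)
  hb0 : b 0 = 1
  hb1 : b 1 * b 1 = b 1 - (e : 𝓞 K)

/-- The number of roots of `x² + x + e` modulo `m`. -/
def rr (e : ℤ) (m : ℕ) : ℕ :=
  ((Finset.range m).filter fun x : ℕ => (m : ℤ) ∣ (x : ℤ) ^ 2 + x + e).card

/-- The sum of `rr e (n / k²)` over all `k ≥ 1` with `k² ∣ n`. -/
def RR (e : ℤ) (n : ℕ) : ℕ :=
  ∑ k ∈ (Finset.Icc 1 n).filter (fun k => k ^ 2 ∣ n), rr e (n / k ^ 2)

/-- First coefficient of the quadratic covariant of the cubic form `(a, 3b, 3c, d)`. -/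
def cA (a b c : ℤ) : ℤ := b ^ 2 - a * c

/-- Middle coefficient of the quadratic covariant. -/
def cB (a b c d : ℤ) : ℤ := b * c - a * d

/-- Minus the discriminant of the quadratic covariant: `4 A C - B²`. -/
def cD (a b c d : ℤ) : ℤ := 4 * cA a b c * cA d c b - cB a b c d ^ 2

/-- First coefficient of the cubic covariant. -/
def cF (a b c d : ℤ) : ℤ := 2 * b ^ 3 - 3 * a * b * c + a ^ 2 * d

/-- `(a, b, c, d)` is a reduced cubic form of discriminant `-D`. -/
def GT (D : ℤ) (a b c d : ℤ) : Prop :=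
  1 ≤ a ∧ 0 ≤ b ∧ b < a ∧ 1 ≤ cA a b c ∧ 3 * cA a b c ^ 2 ≤ D ∧ cD a b c d = D ∧ 0 ≤ cF a b c d

/-- The length of the interval of the values of the cubic covariant. -/
noncomputable def Wf (X a m : ℝ) : ℝ :=
  max 0 (Real.sqrt (4 * m ^ 3 - 3 * a ^ 2 * m ^ 2) - Real.sqrt (4 * m ^ 3 - a ^ 2 * X))

end Pool.Agent.Helper28.T3
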