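import Pool.Agent.Helper28.T3.Defs

/-!
# Project T3, part A: class numbers of imaginary quadratic fields, statements

`K` is a number field with `h : QF D K`: `𝓞 K` has the basis `1, ω`, `ω² = ω - e`, `4e = D + 1`. The
conjugate of `ω` is `1 - ω`, the norm of `s + tω` is `s² + st + e t²`, its trace `2s + t`.
-/

set_option autoImplicit false

open scoped NumberField

namespace Pool.Agent.Helper28.T3

/-- QFE. The field exists. Proof. `D ≥ 3`, `e = (D+1)/4`. `K = AdjoinRoot (X² - X + e)` over `ℚ` (irreducible: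
discriminant `-D < 0`; a monic quadratic polynomial with a rational root would have a real root), `ω` the root,
`δ = 2ω - 1`, `δ² = -D`. Every element is `u + vδ`, `u, v` rational. If it is integral over `ℤ` then
(if `v = 0` it is a rational integer; else its minimal polynomial is `X² - 2uX + u² + Dv²`) `2u` and `u² + Dv²` are
integers, so `D (2v)²` is an integer, so `2v` is an integer (`D` squarefree), and `(2u)² + D(2v)² ≡ 0` modulo `4` with `D ≡ 3`
gives `2u ≡ 2v` modulo 2: the element is `s + tω` with integers `s = u - v`, `t = 2v`. Conversely `ω` is integral. Use any way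
you like (also `QuadraticAlgebra ℚ (-e) 1`, or `Algebra.discr` arguments). -/
def StQFE : Prop := ∀ D : ℕ, Squarefree D → D % 4 = 3 →
  ∃ (K : Type) (_ : Field K) (_ : NumberField K), Nonempty (QF D K)

/-- DSC. The discriminant. Proof: `NumberField.discr_eq_discr`: the determinant of the traces of `1, ω, ω, ω²`, that is of
`2, 1, 1, 1 - 2e` (trace of the multiplication matrix in the basis `1, ω`, `Algebra.trace_eq_matrix_trace`): `1 - 4e`. -/
def StDSC : Prop := ∀ (D : ℕ) (K : Type) [Field K] [NumberField K], QF D K →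
  NumberField.discr K = -(D : ℤ)

/-- PLC (from DSC). Places and regulator, `D > 0`. Proof: the degree is `2` (`NumberField.RingOfIntegers.rank`), the discriminant is negative:
`NumberField.sign_discr` (or: there is no real embedding because `(2ω-1)² = -D < 0`), `card_add_two_mul_card_eq_rank`: one
complex place, no real place, unit rank `0` (`NumberField.Units.rank`), the regulator is the determinant of an empty matrix: `1`
(`NumberField.Units.regulator_eq_det`, `Fin 0`). -/
def StPLC : Prop := ∀ (D : ℕ) (K : Type) [Field K] [NumberField K], QF D K → 0 < D →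
  NumberField.InfinitePlace.nrRealPlaces K = 0 ∧ NumberField.InfinitePlace.nrComplexPlaces K = 1 ∧
    NumberField.Units.regulator K = 1 ∧ Module.finrank ℚ K = 2

/-- TOR. Roots of unity, `D > 4`. Proof: a unit `s + tω` has norm `± 1`, and the norm `s² + st + e t² = ((2s+t)² + D t²)/4` is positive, so
`(2s+t)² + D t² = 4`, `t = 0`, `s = ± 1`. (The norm of `s + tω` is the determinant of its multiplication matrix; or
multiply with the inverse `s' + t'ω` and take the product of the integers `s² + st + et²`.) So the torsion subgroup is `{1, -1}`. -/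
def StTOR : Prop := ∀ (D : ℕ) (K : Type) [Field K] [NumberField K], QF D K → 4 < D →
  NumberField.Units.torsionOrder K = 2

/-- IDC. Number of ideals of norm `n ≥ 1`. Proof. Let `I` be an ideal of norm `n`. The set of `t` with some `s + tω ∈ I` is `kℤ`, `k ≥ 1`, and
`I ∩ ℤ = gℤ`, `g ≥ 1`; choose `s + kω ∈ I`: `I = ℤ g + ℤ (s + kω)`. `gω ∈ I` gives `k ∣ g`, `g = ka`; `ω (s + kω) = -ke + (s + k)ω ∈ I` gives
`k ∣ s`, `s = kβ`. So `I = k (ℤ a + ℤ (β + ω))`, of norm `k² a` (`Ideal.natAbs_det_basis_change` or the index), and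
`ω (β + ω) = (β+1)(β + ω) - (β² + β + e) ∈ (ℤ a + ℤ (β + ω))` (divide by `k`) gives `a ∣ β² + β + e`; `β` is unique modulo `a`, `k` and `a` are
unique. Conversely all these lattices are ideals. So the ideals of norm `n` correspond to pairs `(k, β)`, `k² ∣ n`, `0 ≤ β < a = n/k²`,
`a ∣ β² + β + e`. -/
def StIDC : Prop := ∀ (D : ℕ) (K : Type) [Field K] [NumberField K] (h : QF D K) (n : ℕ), 1 ≤ n →
  Nat.card {I : Ideal (𝓞 K) // Ideal.absNorm I = n} = RR h.e n

/-- RPP. Roots of `x² + x + e` modulo prime powers, `4e = D + 1`, `j ≥ 1`. If `p` does not divide `D`: the same number `1 + (p/D)` for all `j ≥ 1`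
(Hensel: `(2x+1)² = 4 (x²+x+e) - D` is prime to `p` at a root `x` modulo `p^j`, so `x` lifts uniquely modulo `p^(j+1)`; modulo an odd `p`:
`(2x+1)² = -D`, `1 + (-D/p)` solutions, and `(-D/p) = (p/D)` because `D ≡ 3` modulo 4; modulo `2`: two roots if `e` is even, `D ≡ 7` modulo 8,
none if `e` is odd, `D ≡ 3` modulo 8). If `p ∣ D`, `D` squarefree (so `p` is odd): one root modulo `p`, none modulo
`p²` (`(2x+1)² = -D` has no solution modulo `p²`), so none modulo `p^j`, `j ≥ 2`. -/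
def StRPP : Prop := ∀ (D : ℕ) (e : ℤ) (p j : ℕ), Squarefree D → 4 * e = (D : ℤ) + 1 → p.Prime → 1 ≤ j →
  (¬ p ∣ D → (rr e (p ^ j) : ℤ) = 1 + jacobiSym (p : ℤ) D) ∧
  (p ∣ D → rr e p = 1 ∧ (2 ≤ j → rr e (p ^ j) = 0))

/-- MUL. The function `RR e` is multiplicative. Proof: `rr e` is multiplicative for coprime arguments (Chinese remainder theorem), so is the
indicator function of the squares, and `RR e` is their Dirichlet convolution (`k ↦ k²`); or directly. -/
def StMUL : Prop := ∀ (e : ℤ), rr e 1 = 1 ∧ RR e 1 = 1 ∧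
  ∀ m n : ℕ, 1 ≤ m → 1 ≤ n → Nat.Coprime m n → RR e (m * n) = RR e m * RR e n

/-- ARI (from RPP, MUL). `RR e n` is the sum of the quadratic character over the divisors. Proof: both sides are multiplicative; `n = p^m`:
`RR e (p^m) = ∑_{j ≡ m (2), j ≤ m} rr e (p^j)`; with `x = (p/D)`: `x = 1`: `rr = 2` for `j ≥ 1`, total `m + 1`; `x = -1`: `1` for even `m`, `0`
for odd `m`; `x = 0` (`p ∣ D`): `1`. The right side is `1 + x + ⋯ + x^m`. (For instance
`ArithmeticFunction.IsMultiplicative.eq_iff_eq_on_prime_powers` or induction `Nat.recOnPosPrimePosCoprime`.) -/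
def StARI : Prop := ∀ (D : ℕ) (e : ℤ) (n : ℕ), Squarefree D → 4 * e = (D : ℤ) + 1 → 1 ≤ n →
  (RR e n : ℤ) = ∑ d ∈ n.divisors, jacobiSym (d : ℤ) D

/-- CHR. The quadratic character of conductor `D`, `D ≡ 3` modulo 4 squarefree. Proof: `jacobiSym a D` depends only on `a` modulo `D` and is
multiplicative: a `MulChar (ZMod D) ℂ`. Primitive: if it factors through a proper divisor `D'` of `D`, take a prime `p ∣ D/D'` and `a` with
`a ≡ 1` modulo `D/p`, `a` a nonresidue modulo `p` (`p` odd, `D` squarefree): `χ a = -1` but `a ≡ 1` modulo `D'`. Odd: `(-1/D) = -1` since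
`D ≡ 3` modulo 4. (Somebody of projects TX/TW may have it: ask helper76/helper78.) -/
def StCHR : Prop := ∀ D : ℕ, Squarefree D → D % 4 = 3 → ∀ [NeZero D],
  ∃ χ : DirichletCharacter ℂ D, χ.IsPrimitive ∧ χ.Odd ∧ (∀ a : ℤ, χ (a : ZMod D) = (jacobiSym a D : ℂ))

/-- LIM. `L(1, χ)` is the residue of the Dedekind zeta function. Proof: for real `s > 1`, `dedekindZeta K s` is the L-series of the convolution of `1` and `χ`,
so `ζ(s) L(s, χ)` (`LSeries_convolution'` and `LSeriesHasSum`, abscissa; `DirichletCharacter.LFunction_eq_LSeries`); multiply by `s - 1`: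
`riemannZeta_residue_one`, continuity of `LFunction χ` at `1` (`χ ≠ 1`), and
`NumberField.tendsto_sub_one_mul_dedekindZeta_nhdsGT`; limits are unique. -/
def StLIM : Prop := ∀ (D : ℕ) (K : Type) [Field K] [NumberField K] [NeZero D] (χ : DirichletCharacter ℂ D),
  χ ≠ 1 → (∀ a : ℤ, χ (a : ZMod D) = (jacobiSym a D : ℂ)) →
  (∀ n : ℕ, 1 ≤ n → (Nat.card {I : Ideal (𝓞 K) // Ideal.absNorm I = n} : ℤ) =
    ∑ d ∈ n.divisors, jacobiSym (d : ℤ) D) →
  χ.LFunction 1 = ((NumberField.dedekindZeta_residue K : ℝ) : ℂ)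

/-- LF0. The value at `0` of an odd character. Proof: `LFunction χ s = N^(-s) ∑_j χ(j) hurwitzZeta (j/N) s`, and `hurwitzZeta x 0 = 1/2 - x` for
`0 < x ≤ 1` (`hurwitzZeta_neg_nat` with `k = 0`, or `hurwitzZeta_zero`; Bernoulli polynomial `B_1(x) = x - 1/2`), `∑ χ(j) = 0`, `χ 0 = 0`. -/
def StLF0 : Prop := ∀ (D : ℕ) [NeZero D] (χ : DirichletCharacter ℂ D), 1 < D → χ.Odd →
  χ.LFunction 0 = -(∑ a ∈ Finset.range D, χ ((a : ℕ) : ZMod D) * (a : ℂ)) / (D : ℂ)

/-- LF1. Functional equation for a real odd primitive character: `|L(1)| = (π/√D) |L(0)|`. Proof: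
`DirichletCharacter.IsPrimitive.completedLFunction_one_sub` with `s = 0`, `χ⁻¹ = χ`: `Λ(1) = D^(-1/2) w Λ(0)`, and `Λ = Gammaℝ(s+1) L`
(odd: `gammaFactor`), `Gammaℝ 1 = 1`, `Gammaℝ 2 = 1/π`. The equation for `s` and `1 - s` together gives `w² = 1` (`Λ(1) ≠ 0` because
`L(1, χ) ≠ 0`: `DirichletCharacter.LFunction_apply_one_ne_zero`), so `|w| = 1`. -/
def StLF1 : Prop := ∀ (D : ℕ) [NeZero D] (χ : DirichletCharacter ℂ D), 1 < D → χ.IsPrimitive →
  χ.Odd → χ⁻¹ = χ → ‖χ.LFunction 1‖ = Real.pi / Real.sqrt D * ‖χ.LFunction 0‖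

/-- CNF (from all the above). The class number formula: `D h = |∑ (a/D) a|`. -/
def StCNF : Prop := ∀ (D : ℕ) (K : Type) [Field K] [NumberField K], QF D K → Squarefree D →
  D % 4 = 3 → 4 < D → (D : ℤ) * NumberField.classNumber K = |TD D|

/-- IDL. An ideal class of order 3. Proof: Cauchy's theorem in `ClassGroup (𝓞 K)`, a representing integral ideal
(`ClassGroup.mk0_surjective`), `ClassGroup.mk0_eq_one_iff`. -/
def StIDL : Prop := ∀ (K : Type) [Field K] [NumberField K], 3 ∣ NumberField.classNumber K →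
  ∃ (I : Ideal (𝓞 K)) (α : 𝓞 K), I ≠ ⊥ ∧ I ^ 3 = Ideal.span {α} ∧ ¬ I.IsPrincipal

/-- CUB. The cubic form. Proof. Let `τ0, τ1` be a `ℤ`-basis of `I` (`Ideal.selfBasis` for `h.b`), `θ0 = τ0³/α, θ1 = τ0²τ1/α, θ2 = τ0τ1²/α, θ3 = τ1³/α`
(elements of `𝓞 K` because `I³ = (α)`), and `a, b, c, d` their `ω`-coordinates. Write `x'` for the conjugate of `x` (`ω' = 1 - ω`) and `δ = ω - ω'`,
`δ² = -D`; the `ω`-coordinate of `x` is `(x - x')/δ`. `θ1² = θ0θ2`, `θ0θ3 = θ1θ2`, `θ2² = θ1θ3`, so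
`b² - ac = (θ0θ2' + θ0'θ2 - 2θ1θ1')/(-D) = N(τ0)(τ0τ1' - τ0'τ1)²/(-D N(α))`, in the same way
`bc - ad = Tr(τ0τ1')(..)²/(-D N(α))` and `c² - bd = N(τ1)(..)²/(-D N(α))`. With `τi = si + ti ω`: `τ0τ1' - τ0'τ1 = (t0 s1 - s0 t1) δ`,
`|t0 s1 - s0 t1| = N(I)` (`Ideal.natAbs_det_basis_change`), `N(α) = N(I)³ > 0`. So the covariant is
`Q(x,y) = N(x τ0 + y τ1)/N(I)`; its discriminant is `-D`; `Q(x,y) = 1` would give an element of `I` of norm `N(I)`, so `I` principal.
(Everything may be done with integer coordinates: `α θi = τ0^(3-i) τ1^i` are polynomial identities in `si, ti, e`; cancel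
`N(α) ≠ 0`.) -/
def StCUB : Prop := ∀ (D : ℕ) (K : Type) [Field K] [NumberField K], QF D K → 0 < D →
  ∀ (I : Ideal (𝓞 K)) (α : 𝓞 K), I ≠ ⊥ → I ^ 3 = Ideal.span {α} → ¬ I.IsPrincipal →
  ∃ a b c d : ℤ, cD a b c d = D ∧ 0 < cA a b c ∧
    ∀ x y : ℤ, cA a b c * x ^ 2 + cB a b c d * x * y + cA d c b * y ^ 2 ≠ 1

/-- RED. Reduction. Proof. `C = cA d c b = c² - bd`. Consider all `(a,b,c,d)` with `cD = D`, `A > 0` and `Q ≠ 1` everywhere, and take one with `A` minimal. The
substitutions `(a, b, c, d) ↦ (a, b + ka, c + 2kb + k²a, d + 3kc + 3k²b + k³a)` (with `Q(x,y) ↦ Q(x + ky, y)` up to the sign of `k`; same `a`, `A`,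
`cD`, `cF`) and `(a,b,c,d) ↦ (d, -c, b, -a)` (exchanges `A` and `C`, `B ↦ -B`) keep the conditions; so `|B| ≤ A ≤ C` can be
achieved (`C > 0`), `3A² ≤ 4AC - B² = D`. `a ≠ 0`: if `a = 0` then `A = b²`, `B = bc`, `D = b² (3c² - 4bd)`, `D` squarefree, so `b² = 1 = A = Q(1,0)`, contradiction. Change
all signs if `a < 0` (`cF ↦ - cF`; `A`, `B`, `C` the same), then `(a, -b, c, -d)` if `cF < 0` (`cF ↦ -cF`, `B ↦ -B`), and at last translate to `0 ≤ b < a`. -/
def StRED : Prop := ∀ (D : ℕ) (a b c d : ℤ), Squarefree D → 0 < D → cD a b c d = D → 0 < cA a b c →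
  (∀ x y : ℤ, cA a b c * x ^ 2 + cB a b c d * x * y + cA d c b * y ^ 2 ≠ 1) →
  ∃ a' b' c' d' : ℤ, GT D a' b' c' d'

/-- The content of part A: if `3` divides the class number there is a reduced cubic form. -/
def StAfin : Prop := ∀ D : ℕ, Squarefree D → D % 24 = 19 → (3 : ℤ) ∣ TD D →
  ∃ a b c d : ℤ, GT D a b c d

end Pool.Agent.Helper28.T3
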