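import Pool.Agent.Helper28.T3.StA

/-!
# Project T3, part B: counting reduced cubic forms, statements

`X` bounds the discriminant, `m = cA a b c` the first coefficient of the covariant, `P = 4m³`. The identity
`cF² + a² cD = 4 cA³` turns `cD ≤ X`, `3 cA² ≤ cD`, `cF ≥ 0` into `√(P - a²X) ≤ cF ≤ √(P - 3a²m²)` (square root `0` at negative arguments), an interval of length
`Wf X a m`.
-/

set_option autoImplicit false

open MeasureTheory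

namespace Pool.Agent.Helper28.T3

/-- The area under `m ↦ Wf X a m`. -/
noncomputable def IW (X a : ℝ) : ℝ := ∫ m in (0:ℝ)..Real.sqrt (X / 3), Wf X a m

/-- The error exponent. -/
noncomputable def EX (X : ℝ) : ℝ := X ^ (15 / 16 : ℝ)

/-- The reduced cubic forms of discriminant at least `-X`. -/
def GX (X : ℝ) (a b c d : ℤ) : Prop := GT (cD a b c d) a b c d ∧ ((cD a b c d : ℤ) : ℝ) ≤ X

/-- The squarefree numbers `D ≤ N`, `D ≡ 19` modulo 24. -/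
def SQ (N : ℕ) : Finset ℕ := by
  classical exact (Finset.range (N + 1)).filter fun D => Squarefree D ∧ D % 24 = 19

/-- UM. Sums of unimodal functions over an arithmetic progression. Proof. Points `x_k = x0 + h k`. If `x_(k+1) ≤ p`, then
`h f(x_k) ≤ ∫ f` over `[x_k, x_(k+1)]` (monotone); if `p ≤ x_(k-1)`, then `h f(x_k) ≤ ∫ f` over `[x_(k-1), x_k]`. All these intervals have
disjoint interiors. At most two `k` remain (`x_k ≤ p < x_(k+1)` and `x_(k-1) < p < x_k`), each contributing at most `B`. -/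
def StUM : Prop := ∀ (f : ℝ → ℝ) (p h B x0 : ℝ) (S : Finset ℤ), 0 < h → 0 ≤ B → (∀ x, 0 ≤ f x) →
  MonotoneOn f (Set.Iic p) → AntitoneOn f (Set.Ici p) → Integrable f →
  (∀ k ∈ S, f (x0 + h * k) ≤ B) →
  ∑ k ∈ S, f (x0 + h * k) ≤ (1 / h) * (∫ x, f x) + 2 * B

/-- WM. Properties of `m ↦ Wf X a m`, `a > 0`, `X > 0`. Proof. (1) clear (`4m³ - 3a²m² ≤ 0` for `m ≤ 0`). (2) `3m² ≥ X`: the first root is at most the second.
(3) `√u - √v ≤ √(u - v)` for `u ≥ v ≥ 0`; `u = 4m³ - 3a²m² ≤ a²X + (4m³ - a²X)`. (4) continuity. (5) The peak is at `p`, `4p³ = a²X`. For `m ≤ p`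
the second root is `0` and the first `√(4m³ - 3a²m²) = √(m²(4m - 3a²))` is monotone (it is `0` up to `3a²/4`, then a product of increasing
factors). For `m ≥ p`, `u > v`: `√u - √v = (u - v)/(√u + √v) = a²(X - 3m²)/(√u + √v)`, numerator decreasing; if `u ≥ 0` (that is `4m ≥ 3a²`)
both roots are increasing in `m`, so the quotient decreases; when `u ≤ 0` the value is `0`, hence (`u ≤ 0` means `m ≤ 3a²/4`) the case `p < 3a²/4`: for `p ≤ m ≤ 3a²/4` the value is `0`, and there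
`u ≤ 0 ≤ v` gives `a²(X - 3m²) ≤ 0`, so `3m² ≥ X` and all later values are `0`. -/
def StWM : Prop := ∀ X a : ℝ, 0 < X → 0 < a →
  (∀ m, m ≤ 0 → Wf X a m = 0) ∧ (∀ m, 0 ≤ m → X ≤ 3 * m ^ 2 → Wf X a m = 0) ∧
  (∀ m, Wf X a m ≤ a * Real.sqrt X) ∧ Continuous (Wf X a) ∧
  (∀ p, 0 < p → 4 * p ^ 3 = a ^ 2 * X →
    MonotoneOn (Wf X a) (Set.Iic p) ∧ AntitoneOn (Wf X a) (Set.Ici p))

/-- WB. Bounds. Proof. For `m > 0`: `Wf ≤ √(4m³) = 2m√m`. If `4m³ ≥ a²X`: `Wf ≤ √P - √(P - a²X) = a²X/(√P + √(P - a²X)) ≤ a²X/√P`; if `4m³ < a²X`: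
`Wf ≤ √P = P/√P ≤ a²X/√P`. Integral: `[0, X^(1/3)]` with the first bound: at most `(4/5) X^(5/6)`, the rest with the second: at most
`a² X · X^(-1/6)`. -/
def StWB : Prop := ∀ X a : ℝ, 0 < X → 0 < a →
  (∀ m, 0 < m → Wf X a m ≤ 2 * m * Real.sqrt m ∧ Wf X a m ≤ a ^ 2 * X / (2 * m * Real.sqrt m)) ∧
  0 ≤ IW X a ∧ (1 ≤ a → IW X a ≤ 2 * a ^ 2 * X ^ (5 / 6 : ℝ))

/-- PHI. The integral over `a`. Proof. `G_Q(a) = -√(P - Qa²)/a - √Q arcsin(a √(Q/P))` is continuous on `a > 0`, has the derivative `√(P - Qa²)/a²` except at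
`a = √(P/Q)` and is the constant `-(π/2)√Q` from there on. `G_Q - G_R` tends to `0` for `a → 0+`
(`(√(P - Ra²) - √(P - Qa²))/a = (Q - R) a /(..)`). The integrand is nonnegative, zero for `a ≥ √(P/Q)`, bounded near 0. -/
def StPHI : Prop := ∀ P Q R : ℝ, 0 < P → 0 < Q → Q ≤ R →
  IntegrableOn (fun a : ℝ => (Real.sqrt (P - Q * a ^ 2) - Real.sqrt (P - R * a ^ 2)) / a ^ 2) (Set.Ioi 0) ∧
  ∫ a in Set.Ioi (0:ℝ), (Real.sqrt (P - Q * a ^ 2) - Real.sqrt (P - R * a ^ 2)) / a ^ 2 =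
    Real.pi / 2 * (Real.sqrt R - Real.sqrt Q)

/-- WA. For fixed `m`, the function `a ↦ Wf X a m / a²`, `a > 0`, is unimodal with peak `√(4m³/X)`. Proof. `P = 4m³`; since `3m² ≤ X` the maximum with `0` is
superfluous. For `a² ≤ P/X` it is `(X - 3m²)/(√(P - 3m²a²) + √(P - Xa²))`, increasing in `a`; for `a² ≥ P/X` it is `√(P - 3m²a²)/a²`, decreasing. -/
def StWA : Prop := ∀ X m : ℝ, 0 < X → 0 < m → 3 * m ^ 2 ≤ X →
  (∀ a, 0 < a → Wf X a m =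
    Real.sqrt (4 * m ^ 3 - 3 * m ^ 2 * a ^ 2) - Real.sqrt (4 * m ^ 3 - X * a ^ 2)) ∧
  MonotoneOn (fun a : ℝ => if 0 < a then Wf X a m / a ^ 2 else 0) (Set.Iic (Real.sqrt (4 * m ^ 3 / X))) ∧
  AntitoneOn (fun a : ℝ => if 0 < a then Wf X a m / a ^ 2 else 0) (Set.Ici (Real.sqrt (4 * m ^ 3 / X)))

/-- SA (from UM, WA, WB, PHI). The sum over `a` for fixed `m`. Proof. UM for `f a = if 0 < a then Wf X a m / a² else 0`, `h = 6`, `x0 = a0`,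
`a = a0 + 6k`, `B = min (2m√m) (X/(2m√m))` (WB and `a ≥ 1`); the integral is PHI with `P = 4m³`, `Q = 3m²`, `R = X`, `√Q = √3 m`. -/
def StSA : Prop := ∀ X m : ℝ, 0 < X → 0 < m → 3 * m ^ 2 ≤ X → ∀ (a0 : ℤ) (S : Finset ℤ),
  (∀ a ∈ S, 1 ≤ a ∧ a % 6 = a0) →
  ∑ a ∈ S, Wf X a m / (a : ℝ) ^ 2 ≤
    1 / 6 * (Real.pi / 2 * (Real.sqrt X - Real.sqrt 3 * m)) +
      2 * min (2 * m * Real.sqrt m) (X / (2 * m * Real.sqrt m))

/-- IA (from SA, WM). The sum over `a` of the areas. Proof. `∑ IW X a / a² = ∫_0^√(X/3) ∑ Wf X a m / a² dm` (finite sum of continuous functions);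
SA; `∫ (√X - √3 m) dm = X/(2√3)`, so the main term is `(1/6)(π/2) X/(2√3) = πX/(24√3)`; the minimum is at most `2T√T` for `m ≤ T` and at most `X/(2T√T)` for
`m ≥ T`; with `T = X^(3/8)` the two parts are at most `2 X^(15/16)` and `X^(3/2 - 9/16) = X^(15/16)` (any other way giving the
exponent `15/16` is fine). -/
def StIA : Prop := ∃ C : ℝ, 0 ≤ C ∧ ∀ X : ℝ, 1 ≤ X → ∀ (a0 : ℤ) (S : Finset ℤ),
  (∀ a ∈ S, 1 ≤ a ∧ a % 6 = a0) →
  ∑ a ∈ S, IW X a / (a : ℝ) ^ 2 ≤ Real.pi * X / (24 * Real.sqrt 3) + C * EX X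

/-- DCN. The number of `d`. Proof. `y = cF a b c d = (2b³ - 3abc) + a² d ≥ 0` and `y² = 4m³ - a² cD` (identity), `m = cA a b c`, so
`√(4m³ - a²X) ≤ y ≤ √(4m³ - 3a²m²)`: `d` lies in an interval of length at most `Wf X a m / a²` and in one class modulo 6: at most
`(length)/6 + 1` of them. -/
def StDCN : Prop := ∀ (X : ℝ) (a b c d0 : ℤ) (F : Finset ℤ),
  (∀ d ∈ F, d % 6 = d0 ∧ GX X a b c d) →
  (F.card : ℝ) ≤ Wf X a (cA a b c) / (6 * (a : ℝ) ^ 2) + 1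

/-- CCN (from UM, WM). The sum over `c`. Proof. `c = c0 + 6k`; `m = b² - ac = (b² - a c0) - 6a k` is an arithmetic progression with difference `6a` (put `k ↦ -k`); UM with
`B = a √X`, `∫ Wf X a = IW X a` (`Wf` vanishes outside `[0, √(X/3)]`), so `∑ Wf ≤ IW/(6a) + 2a√X`. The number of terms is at most
`√(X/3)/(6a) + 1`. Total at most `(IW/(6a) + 2a√X)/(6a²) + √X/(6a) + 1`. -/
def StCCN : Prop := ∀ (X : ℝ) (a b c0 : ℤ) (G : Finset ℤ), 0 < X → 1 ≤ a →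
  (∀ c ∈ G, c % 6 = c0 ∧ 1 ≤ cA a b c ∧ 3 * ((cA a b c : ℤ) : ℝ) ^ 2 ≤ X) →
  ∑ c ∈ G, (Wf X a (cA a b c) / (6 * (a : ℝ) ^ 2) + 1) ≤
    IW X a / (36 * (a : ℝ) ^ 3) + Real.sqrt X / a + 1

/-- ABC (from DCN, CCN). The number of reduced forms with given `a` in one class modulo 6. Proof. Count by `(b, c)` with DCN (`GX` implies `1 ≤ cA`, `3 cA² ≤ cD ≤ X`), then sum
over `c` for each `b` by CCN; at most `a/6 + 1` values of `b` (`0 ≤ b < a`, `b % 6 = b0`). -/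
def StABC : Prop := ∀ (X : ℝ) (a b0 c0 d0 : ℤ) (T : Finset (ℤ × ℤ × ℤ)), 0 < X → 1 ≤ a →
  (∀ t ∈ T, t.1 % 6 = b0 ∧ t.2.1 % 6 = c0 ∧ t.2.2 % 6 = d0 ∧ GX X a t.1 t.2.1 t.2.2) →
  (T.card : ℝ) ≤ ((a : ℝ) / 6 + 1) * (IW X a / (36 * (a : ℝ) ^ 3) + Real.sqrt X / a + 1)

/-- CLS (from ABC, WB, IA). The number of reduced forms in one class modulo 6. Proof. `GX X a b c d` implies `1 ≤ a` and `a⁴ ≤ X`: the identity gives `4m³ ≥ a² cD ≥ 3a²m²`,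
`a² ≤ 4m/3`, `3m² ≤ X`, so `a⁴ ≤ 16X/27`. Sum ABC over `a`: the main terms are `IW/(216 a²)`, in total at most `(πX/(24√3) + C EX X)/216` by IA, and
`πX/(24·216·√3) = πX/(5184√3)`. The other terms: `IW/(36a³) ≤ X^(5/6)/(18a)` (WB), sum over `a ≤ X^(1/4)` at most
`X^(5/6) (1 + log X)`; `√X/6 + √X/a + a/6 + 1 ≤ 4√X`, sum at most `4 X^(3/4)`. All at most a constant times `X^(15/16)`. -/
def StCLS : Prop := ∃ C : ℝ, 0 ≤ C ∧ ∀ X : ℝ, 1 ≤ X → ∀ (a0 b0 c0 d0 : ℤ)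
  (T : Finset (ℤ × ℤ × ℤ × ℤ)),
  (∀ t ∈ T, t.1 % 6 = a0 ∧ t.2.1 % 6 = b0 ∧ t.2.2.1 % 6 = c0 ∧ t.2.2.2 % 6 = d0 ∧
    GX X t.1 t.2.1 t.2.2.1 t.2.2.2) →
  (T.card : ℝ) ≤ Real.pi * X / (5184 * Real.sqrt 3) + C * EX X

/-- The classes modulo 6 with `cD ≡ 19` modulo 24. -/
def Cl6 : Finset (Fin 6 × Fin 6 × Fin 6 × Fin 6) :=
  Finset.univ.filter fun t =>
    (t.2.1.val ^ 2 + 5 * t.1.val * t.2.2.1.val) % 2 = 1 ∧
    (t.2.1.val * t.2.2.1.val + 5 * t.1.val * t.2.2.2.val) % 2 = 1 ∧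
    (t.2.2.1.val ^ 2 + 5 * t.2.1.val * t.2.2.2.val) % 2 = 1 ∧
    ((t.2.1.val ^ 2 + 5 * t.1.val * t.2.2.1.val) * (t.2.2.1.val ^ 2 + 5 * t.2.1.val * t.2.2.2.val)
      + 5 * (t.2.1.val * t.2.2.1.val + 5 * t.1.val * t.2.2.2.val) ^ 2) % 3 = 1

/-- GOOD. There are 72 classes. Proof: `decide` (or reduce to 16 classes modulo 2, of which 3 are good, and 81 classes modulo 3, of which 24 are good, if `decide` is
slow); the second part: `D = 4AC - B² ≡ 3` modulo 8 makes `B` odd and `AC` odd; modulo 3. -/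
def StGOOD : Prop := Cl6.card = 72 ∧ ∀ a b c d : ℤ, cD a b c d % 24 = 19 →
  ∃ t ∈ Cl6, a % 6 = (t.1.val : ℤ) ∧ b % 6 = (t.2.1.val : ℤ) ∧ c % 6 = (t.2.2.1.val : ℤ) ∧
    d % 6 = (t.2.2.2.val : ℤ)

/-- CNT (from CLS, GOOD). The number of discriminants of reduced forms. Proof. Choose a form for each `D ∈ S`: injective since `cD = D`. Split the forms into the 72 classes:
at most `72 πN/(5184√3) + 72 C EX N`, and `72π/(5184√3) = π/(72√3) = 0.02519.. ≤ 1/39 = 0.02564..` (`Real.pi_lt_d2` and `√3 > 1.73`). -/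
def StCNT : Prop := ∃ C : ℝ, 0 ≤ C ∧ ∀ N : ℕ, 1 ≤ N → ∀ S : Finset ℕ,
  (∀ D ∈ S, D ≤ N ∧ D % 24 = 19 ∧ ∃ a b c d : ℤ, GT D a b c d) →
  (S.card : ℝ) ≤ (N : ℝ) / 39 + C * EX N

/-- SQF. Squarefree numbers `≡ 19` modulo 24. Proof. There are at least `N/24 - 1` numbers `D ≤ N`, `D % 24 = 19`; a number that is not squarefree is divisible by `p²`,
`p` prime, `p ≤ √N`, and `p` does not divide `6` (`D` is prime to 6): at most `N/(24p²) + 1` of them for each `p`. The sum of `1/p²` over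
`p ≥ 5` is at most `1/25 + 1/49 + 1/121 + 1/169 + ⋯ ≤ 1/9` (even over all `k ≥ 5` prime to 6, which is `π²/9 - 1 = 0.0966`), so at least
`N/24 - N/216 - 1 - √N = N/27 - 1 - √N`. -/
def StSQF : Prop := ∃ C : ℝ, 0 ≤ C ∧ ∀ N : ℕ, 1 ≤ N →
  (N : ℝ) / 27 - C * EX N ≤ ((SQ N).card : ℝ)

/-- FIN (from SQF, CNT, Afin). A positive proportion of class numbers prime to 3. Proof. The set of the `D ∈ SQ N` with `3 ∣ TD D` has at most `N/39 + C EX N` elements (Afin, CNT), so at least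
`N/27 - N/39 - (C + C') EX N = (4/351) N - (C + C') N^(15/16)` remain, and `4/351 = 0.01139.. > 1/100`. -/
def StFIN : Prop := ∃ N0 : ℕ, ∀ N : ℕ, N0 ≤ N → ∀ G : Finset ℕ,
  (∀ D, D ∈ G ↔ (D ≤ N ∧ Squarefree D ∧ D % 24 = 19 ∧ ¬ (3 : ℤ) ∣ TD D)) →
  (N : ℝ) / 100 ≤ (G.card : ℝ)

end Pool.Agent.Helper28.T3
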