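import Pool.Agent.Helper28.T3.StB

/-!
# Project T3, part C: the counting for a general modulus `q`, and the even characters

Same proofs as in part B with `6` replaced by `q`. Even characters: `D > 1` squarefree, `D ≡ 1` or `17` modulo 24; `D' = 3D ≡ 3` or `51` modulo 72, and the condition is
`3 ∤ h(-D')`, that is `9 ∤ TD D'` (`|TD D'| = D' h(-D')`).
-/

set_option autoImplicit false

open MeasureTheory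

namespace Pool.Agent.Helper28.T3

/-- SAq (from UM, WA, WB, PHI). SA with `6` replaced by `q`. -/
def StSAq : Prop := ∀ q : ℕ, 1 ≤ q → ∀ X m : ℝ, 0 < X → 0 < m → 3 * m ^ 2 ≤ X →
  ∀ (a0 : ℤ) (S : Finset ℤ), (∀ a ∈ S, 1 ≤ a ∧ a % (q : ℤ) = a0) →
  ∑ a ∈ S, Wf X a m / (a : ℝ) ^ 2 ≤
    1 / (q : ℝ) * (Real.pi / 2 * (Real.sqrt X - Real.sqrt 3 * m)) +
      2 * min (2 * m * Real.sqrt m) (X / (2 * m * Real.sqrt m))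

/-- IAq (from SAq, WM). IA with `6` replaced by `q`: main term `(1/q)(π/2) X/(2√3)`. -/
def StIAq : Prop := ∀ q : ℕ, 1 ≤ q → ∃ C : ℝ, 0 ≤ C ∧ ∀ X : ℝ, 1 ≤ X → ∀ (a0 : ℤ) (S : Finset ℤ),
  (∀ a ∈ S, 1 ≤ a ∧ a % (q : ℤ) = a0) →
  ∑ a ∈ S, IW X a / (a : ℝ) ^ 2 ≤ Real.pi * X / (4 * Real.sqrt 3 * q) + C * EX X

/-- DCNq. DCN with `6` replaced by `q`. -/
def StDCNq : Prop := ∀ q : ℕ, 1 ≤ q → ∀ (X : ℝ) (a b c d0 : ℤ) (F : Finset ℤ),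
  (∀ d ∈ F, d % (q : ℤ) = d0 ∧ GX X a b c d) →
  (F.card : ℝ) ≤ Wf X a (cA a b c) / (q * (a : ℝ) ^ 2) + 1

/-- CCNq (from UM, WM). CCN with `6` replaced by `q`: `∑ Wf ≤ IW/(qa) + 2a√X`, divided by `q a²`, plus the number of terms, at most `√(X/3)/(qa) + 1`. -/
def StCCNq : Prop := ∀ q : ℕ, 1 ≤ q → ∀ (X : ℝ) (a b c0 : ℤ) (G : Finset ℤ), 0 < X → 1 ≤ a →
  (∀ c ∈ G, c % (q : ℤ) = c0 ∧ 1 ≤ cA a b c ∧ 3 * ((cA a b c : ℤ) : ℝ) ^ 2 ≤ X) →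
  ∑ c ∈ G, (Wf X a (cA a b c) / (q * (a : ℝ) ^ 2) + 1) ≤
    IW X a / ((q : ℝ) ^ 2 * (a : ℝ) ^ 3) + 3 * Real.sqrt X / a + 1

/-- ABCq (from DCNq, CCNq). -/
def StABCq : Prop := ∀ q : ℕ, 1 ≤ q → ∀ (X : ℝ) (a b0 c0 d0 : ℤ) (T : Finset (ℤ × ℤ × ℤ)),
  0 < X → 1 ≤ a →
  (∀ t ∈ T, t.1 % (q : ℤ) = b0 ∧ t.2.1 % (q : ℤ) = c0 ∧ t.2.2 % (q : ℤ) = d0 ∧
    GX X a t.1 t.2.1 t.2.2) →
  (T.card : ℝ) ≤ ((a : ℝ) / q + 1) *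
    (IW X a / ((q : ℝ) ^ 2 * (a : ℝ) ^ 3) + 3 * Real.sqrt X / a + 1)

/-- CLSq (from ABCq, WB, IAq). -/
def StCLSq : Prop := ∀ q : ℕ, 1 ≤ q → ∃ C : ℝ, 0 ≤ C ∧ ∀ X : ℝ, 1 ≤ X → ∀ (a0 b0 c0 d0 : ℤ)
  (T : Finset (ℤ × ℤ × ℤ × ℤ)),
  (∀ t ∈ T, t.1 % (q : ℤ) = a0 ∧ t.2.1 % (q : ℤ) = b0 ∧ t.2.2.1 % (q : ℤ) = c0 ∧
    t.2.2.2 % (q : ℤ) = d0 ∧ GX X t.1 t.2.1 t.2.2.1 t.2.2.2) →
  (T.card : ℝ) ≤ Real.pi * X / (4 * Real.sqrt 3 * (q : ℝ) ^ 4) + C * EX X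

/-- GODq. The classes modulo 18 with `cD ≡ r` modulo 72, `r = 3` or `51`: at most `3 · 648 = 1944`. Proof: `cD ≡ 3` modulo 8 means that `cA a b c`, `cB a b c d`, `cA d c b` are odd: 3 of
the 16 classes modulo 2; `cD` modulo 9 depends only on the classes modulo 9, of which 648 of the 6561 give `r` (`r % 9 = 3` or `6`). Count both by `decide`
(`decide +kernel` if slow, or fix `a, b, c` and count `d`) and take the image of the product under the Chinese remainder map. -/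
def StGODq : Prop := ∀ r : ℤ, r = 3 ∨ r = 51 → ∃ I : Finset (ℤ × ℤ × ℤ × ℤ), I.card ≤ 1944 ∧
  ∀ a b c d : ℤ, cD a b c d % 72 = r → (a % 18, b % 18, c % 18, d % 18) ∈ I

/-- CNTq (from CLSq, GODq). Proof as for CNT: `1944 π/(4√3 · 18⁴) = 0.008397.. ≤ 1/116 = 0.0086206..`. -/
def StCNTq : Prop := ∃ C : ℝ, 0 ≤ C ∧ ∀ r : ℕ, r = 3 ∨ r = 51 → ∀ N : ℕ, 1 ≤ N → ∀ S : Finset ℕ,
  (∀ D ∈ S, D ≤ N ∧ D % 72 = r ∧ ∃ a b c d : ℤ, GT D a b c d) →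
  (S.card : ℝ) ≤ (N : ℝ) / 116 + C * EX N

/-- SQFq. SQF for the other classes. -/
def StSQFq : Prop := ∃ C : ℝ, 0 ≤ C ∧ ∀ r : ℕ, r = 1 ∨ r = 17 → ∀ N : ℕ, 1 ≤ N →
  ∀ G : Finset ℕ, (∀ D, D ∈ G ↔ (D ≤ N ∧ Squarefree D ∧ D % 24 = r)) →
  (N : ℝ) / 27 - C * EX N ≤ (G.card : ℝ)

/-- AFNq (from QFE, CNF, IDL, CUB, RED; owner helper28). -/
def StAFNq : Prop := ∀ D : ℕ, Squarefree D → D % 4 = 3 → 4 < D → 3 ∣ D → (9 : ℤ) ∣ TD D →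
  ∃ a b c d : ℤ, GT D a b c d

/-- FINq (from SQFq, CNTq, AFNq). Proof. For squarefree `D ≤ N`, `D % 24 = r`, `D' = 3D ≤ 3N` is squarefree and `D' % 72 = 3r`; those with `9 ∣ TD D'` number at most
`3N/116 + C EX (3N)` (AFNq, CNTq, `D > 1`), so at least `N/27 - 3N/116 - 1 - ..` remain, `1/27 - 3/116 = 0.011175 > 1/100`. -/
def StFINq : Prop := ∀ r : ℕ, r = 1 ∨ r = 17 → ∃ N0 : ℕ, ∀ N : ℕ, N0 ≤ N → ∀ G : Finset ℕ,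
  (∀ D, D ∈ G ↔ (1 < D ∧ D ≤ N ∧ Squarefree D ∧ D % 24 = r ∧ ¬ (9 : ℤ) ∣ TD (3 * D))) →
  (N : ℝ) / 100 ≤ (G.card : ℝ)

end Pool.Agent.Helper28.T3
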