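import Pool.Agent.Helper28.T3.StC

/-!
# Project T3: quadratic fields of discriminant `-D` have the structure `QF D`
-/

set_option autoImplicit false

open scoped NumberField

namespace Pool.Agent.Helper28.T3

/-- QFD. Proof. `𝓞 K` is free of rank `2` over `ℤ`. `1` is part of a basis: let `b` be any basis (`NumberField.RingOfIntegers.basis`, reindexed to `Fin 2`), `1 = x b0 + y b1`; if a prime `p` divides `x` and `y`
then `1 = p z` with `z ∈ 𝓞 K`, impossible (`p` is not a unit in `𝓞 K`: its norm is `p²`); so `x, y` are coprime, `u x + v y = 1`, and `1, θ = -v b0 + u b1` is a basis (matrix of determinant `1`; `Module.Basis.mk` or `Basis.map`/`basisOfLinearIndependent..`).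
`θ² = s + t θ` with integers `s, t` (coordinates). The discriminant is the determinant of the traces of `1, θ, θ, θ²`, `tr 1 = 2`, `tr θ = t` (trace of the multiplication matrix), `tr θ² = 2s + t²`: `2(2s + t²) - t² = t² + 4s = -D` (`NumberField.discr_eq_discr`). So `t` is odd (`D ≡ 3` modulo 4), `ω = θ - (t-1)/2`
satisfies `ω² = ω - e`, `1 - 4e = -D`, and `1, ω` is a basis. -/
def StQFD : Prop := ∀ (D : ℕ) (K : Type) [Field K] [NumberField K], D % 4 = 3 →
  Module.finrank ℚ K = 2 → NumberField.discr K = -(D : ℤ) → Nonempty (QF D K)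

end Pool.Agent.Helper28.T3
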